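import Mathlib

/-!
# An integral identity for marked Poisson processes
-/

namespace Q296.Cover

open MeasureTheory Set Finset

variable {S : Type*} [Fintype S]

/-- `exp (-∑ w_s a_s⁺)` -/
noncomputable def hfun (w a : S → ℝ) : ℝ := Real.exp (-∑ s, w s * max (a s) 0)

lemma hfun_pos (w a : S → ℝ) : 0 < hfun w a := Real.exp_pos _

lemma hfun_le_one {w : S → ℝ} (hw : ∀ s, 0 ≤ w s) (a : S → ℝ) : hfun w a ≤ 1 := by
  unfold hfun
  rw [Real.exp_le_one_iff, neg_nonpos]
  exact Finset.sum_nonneg fun s _ => mul_nonneg (hw s) (le_max_right _ _)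

lemma hfun_eq_one {w a : S → ℝ} (ha : ∀ s, a s ≤ 0) : hfun w a = 1 := by
  unfold hfun
  have : ∑ s, w s * max (a s) 0 = 0 := by
    refine Finset.sum_eq_zero fun s _ => ?_
    rw [max_eq_right (ha s), mul_zero]
  rw [this, neg_zero, Real.exp_zero]

/-- the integrand -/
noncomputable def psi (w a : S → ℝ) (x : ℝ) : ℝ :=
  Real.exp (-x) * ∑ s, w s * (if a s < x then hfun w (fun r => a r - x) else 0)

lemma hasDeriv_pos (c x : ℝ) :
    HasDerivWithinAt (fun y => max (c - y) 0) (if x < c then -1 else 0) (Set.Ioi x) x := by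
  by_cases h : x < c
  · rw [if_pos h]
    have h1 : HasDerivAt (fun y : ℝ => c - y) (-1) x := by
      simpa using (hasDerivAt_id x).const_sub c
    have h2 : (fun y : ℝ => max (c - y) 0) =ᶠ[nhds x] fun y => c - y := by
      filter_upwards [gt_mem_nhds h] with y hy
      exact max_eq_left (by linarith)
    exact (h1.congr_of_eventuallyEq h2).hasDerivWithinAt
  · rw [if_neg h]
    push Not at h
    refine (hasDerivWithinAt_const x (Set.Ioi x) (0 : ℝ)).congr ?_ ?_
    · intro y hy
      exact max_eq_right (by have : x < y := hy; linarith)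
    · exact max_eq_right (by linarith)

lemma continuous_pos (c : ℝ) : Continuous (fun y : ℝ => max (c - y) 0) :=
  (continuous_const.sub continuous_id).max continuous_const

lemma continuous_hfun (w a : S → ℝ) : Continuous (fun x : ℝ => hfun w (fun r => a r - x)) := by
  unfold hfun
  refine Real.continuous_exp.comp (Continuous.neg ?_)
  exact continuous_finsetSum _ fun s _ => (continuous_pos (a s)).const_mul _

lemma measurable_psi (w a : S → ℝ) : Measurable (psi w a) := by
  unfold psi
  refine (Real.continuous_exp.comp continuous_neg).measurable.mul ?_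
  refine Finset.measurable_sum _ fun s _ => Measurable.const_mul ?_ _
  refine Measurable.ite ?_ (continuous_hfun w a).measurable measurable_const
  exact measurableSet_lt measurable_const measurable_id

lemma psi_nonneg {w : S → ℝ} (hw : ∀ s, 0 ≤ w s) (a : S → ℝ) (x : ℝ) : 0 ≤ psi w a x := by
  unfold psi
  refine mul_nonneg (Real.exp_nonneg _) (Finset.sum_nonneg fun s _ => mul_nonneg (hw s) ?_)
  split_ifs
  · exact (hfun_pos _ _).le
  · exact le_rfl

lemma psi_le {w : S → ℝ} (hw : ∀ s, 0 ≤ w s) (hsum : ∑ s, w s = 1) (a : S → ℝ) (x : ℝ) :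
    psi w a x ≤ Real.exp (-x) := by
  unfold psi
  calc Real.exp (-x) * ∑ s, w s * (if a s < x then hfun w (fun r => a r - x) else 0)
      ≤ Real.exp (-x) * ∑ s, w s * 1 := by
        refine mul_le_mul_of_nonneg_left ?_ (Real.exp_nonneg _)
        refine Finset.sum_le_sum fun s _ => mul_le_mul_of_nonneg_left ?_ (hw s)
        split_ifs
        · exact hfun_le_one hw _
        · exact zero_le_one
    _ = Real.exp (-x) := by simp [hsum]

lemma integrableOn_exp_neg (M : ℝ) : IntegrableOn (fun x : ℝ => Real.exp (-x)) (Set.Ioi M) := by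
  have := exp_neg_integrableOn_Ioi M (b := 1) one_pos
  simpa using this

lemma integrableOn_psi {w : S → ℝ} (hw : ∀ s, 0 ≤ w s) (hsum : ∑ s, w s = 1) (a : S → ℝ) (M : ℝ) :
    IntegrableOn (psi w a) (Set.Ioi M) := by
  refine Integrable.mono' (integrableOn_exp_neg M) (measurable_psi w a).aestronglyMeasurable ?_
  refine Filter.Eventually.of_forall fun x => ?_
  rw [Real.norm_of_nonneg (psi_nonneg hw a x)]
  exact psi_le hw hsum a x

theorem star {w : S → ℝ} (hw : ∀ s, 0 ≤ w s) (hsum : ∑ s, w s = 1) (a : S → ℝ) :
    ∫ x in Set.Ioi 0, psi w a x = hfun w a := by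
  classical
  obtain ⟨M, hM0, hM⟩ : ∃ M : ℝ, 0 ≤ M ∧ ∀ s, a s ≤ M := by
    refine ⟨∑ s, |a s|, Finset.sum_nonneg fun s _ => abs_nonneg _, fun s => ?_⟩
    exact (le_abs_self _).trans (Finset.single_le_sum (f := fun s => |a s|)
      (fun s _ => abs_nonneg _) (Finset.mem_univ s))
  set K : ℝ → ℝ := fun x => Real.exp (-x) * hfun w (fun r => a r - x) with hK
  set W' : ℝ → ℝ := fun x => ∑ s, w s * (if a s ≤ x then 1 else 0) with hW'
  have hKc : Continuous K :=
    (Real.continuous_exp.comp continuous_neg).mul (continuous_hfun w a)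
  -- split the domain
  rw [← Set.Ioc_union_Ioi_eq_Ioi hM0, setIntegral_union
    (Set.Ioc_disjoint_Ioi le_rfl) measurableSet_Ioi
    ((integrableOn_psi hw hsum a 0).mono_set (fun x hx => hx.1)) (integrableOn_psi hw hsum a M)]
  -- the second part
  have h2 : ∫ x in Set.Ioi M, psi w a x = Real.exp (-M) := by
    rw [← integral_exp_neg_Ioi M]
    refine setIntegral_congr_fun measurableSet_Ioi ?_
    intro x hx
    have hx' : M < x := hx
    have h3 : ∀ s, (if a s < x then hfun w (fun r => a r - x) else 0) = 1 := by
      intro s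
      rw [if_pos (lt_of_le_of_lt (hM s) hx')]
      exact hfun_eq_one fun r => by have := hM r; linarith
    simp only [psi, h3, mul_one, hsum]
  -- the first part
  have hKder : ∀ x, HasDerivWithinAt (fun y => - K y) (K x * W' x) (Set.Ioi x) x := by
    intro x
    have h4 : HasDerivWithinAt (fun y : ℝ => -y - ∑ s, w s * max (a s - y) 0)
        (-1 - ∑ s, w s * (if x < a s then -1 else 0)) (Set.Ioi x) x := by
      refine (hasDerivAt_neg x).hasDerivWithinAt.sub ?_
      exact HasDerivWithinAt.fun_sum fun s _ => (hasDeriv_pos (a s) x).const_mul (w s)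
    have h5 := h4.exp.neg
    have e1 : (fun y => - K y) = fun y : ℝ => -Real.exp (-y - ∑ s, w s * max (a s - y) 0) := by
      funext y
      simp only [hK, hfun]
      rw [← Real.exp_add]
      congr 2
    rw [e1]
    have e2 : (-1 - ∑ s, w s * (if x < a s then (-1 : ℝ) else 0)) = - W' x := by
      have e3 : ∑ s, w s * (if x < a s then (-1 : ℝ) else 0) = W' x - 1 := by
        have e7 : W' x - 1 = ∑ s, (w s * (if a s ≤ x then 1 else 0) - w s) := by
          rw [Finset.sum_sub_distrib, hsum]
        rw [e7]
        refine Finset.sum_congr rfl fun s _ => ?_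
        by_cases h : x < a s
        · rw [if_pos h, if_neg (not_le.2 h)]; ring
        · rw [if_neg h, if_pos (not_lt.1 h)]; ring
      rw [e3]; ring
    have e4 : K x = Real.exp (-x - ∑ s, w s * max (a s - x) 0) := by
      have := congrFun e1 x
      simpa using this
    rw [e2, ← e4] at h5
    have e8 : -(K x * -W' x) = K x * W' x := by ring
    rw [e8] at h5
    exact h5
  have hW'm : Measurable W' := by
    refine Finset.measurable_sum _ fun s _ => Measurable.const_mul ?_ _
    exact Measurable.ite (measurableSet_le measurable_const measurable_id) measurable_const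
      measurable_const
  have hW'b : ∀ x, |W' x| ≤ 1 := by
    intro x
    have h6 : 0 ≤ W' x := Finset.sum_nonneg fun s _ => mul_nonneg (hw s) (by split_ifs <;> norm_num)
    have h7 : W' x ≤ 1 := by
      rw [← hsum]
      refine Finset.sum_le_sum fun s _ => ?_
      split_ifs
      · rw [mul_one]
      · rw [mul_zero]; exact hw s
    rw [abs_of_nonneg h6]; exact h7
  have hint : IntervalIntegrable (fun x => K x * W' x) volume 0 M := by
    rw [intervalIntegrable_iff_integrableOn_Ioc_of_le hM0]
    refine Integrable.mono' (g := fun x => |K x|) ?_ ?_ ?_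
    · exact (hKc.abs.integrableOn_Icc (a := 0) (b := M)).mono_set Set.Ioc_subset_Icc_self
    · exact (hKc.measurable.mul hW'm).aestronglyMeasurable
    · refine Filter.Eventually.of_forall fun x => ?_
      rw [Real.norm_eq_abs, abs_mul]
      calc |K x| * |W' x| ≤ |K x| * 1 := mul_le_mul_of_nonneg_left (hW'b x) (abs_nonneg _)
        _ = |K x| := mul_one _
  have h1 : ∫ x in Set.Ioc 0 M, psi w a x = hfun w a - Real.exp (-M) := by
    have h8 : ∫ x in Set.Ioc 0 M, psi w a x = ∫ x in Set.Ioc 0 M, K x * W' x := by
      refine integral_congr_ae ?_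
      refine ae_restrict_of_ae ?_
      have hnull : volume (((Finset.univ : Finset S).image a : Finset ℝ) : Set ℝ) = 0 :=
        (Finset.countable_toSet _).measure_zero _
      have h9 : ∀ᵐ x : ℝ, x ∉ (((Finset.univ : Finset S).image a : Finset ℝ) : Set ℝ) :=
        measure_eq_zero_iff_ae_notMem.1 hnull
      filter_upwards [h9] with x hx
      have h10 : ∀ s, a s ≠ x := by
        intro s hs
        apply hx
        rw [Finset.mem_coe, Finset.mem_image]
        exact ⟨s, Finset.mem_univ s, hs⟩
      simp only [psi, hK, hW']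
      rw [mul_assoc, Finset.mul_sum (a := hfun w fun r => a r - x)]
      congr 1
      refine Finset.sum_congr rfl fun s _ => ?_
      by_cases h : a s < x
      · rw [if_pos h, if_pos h.le]; ring
      · rw [if_neg h, if_neg (fun h' => h (lt_of_le_of_ne h' (h10 s)))]; ring
    rw [h8, ← intervalIntegral.integral_of_le hM0,
      intervalIntegral.integral_eq_sub_of_hasDeriv_right_of_le hM0
        (hKc.neg.continuousOn) (fun x _ => hKder x) hint]
    have e5 : K M = Real.exp (-M) := by
      simp only [hK]
      rw [hfun_eq_one (fun r => by have := hM r; linarith), mul_one]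
    have e6 : K 0 = hfun w a := by
      simp only [hK, neg_zero, Real.exp_zero, one_mul, sub_zero]
    rw [Pi.neg_apply, Pi.neg_apply, e5, e6]; ring
  rw [h1, h2]; ring

end Q296.Cover
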