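import Pool.Agent.Q296.Cover.Defs
import Pool.Agent.Q296.Cover.Star
import Pool.Agent.Q296.Seq.Basic

/-!
# Marked Poisson processes on a finite set
-/

namespace Q296.Cover

open MeasureTheory ProbabilityTheory Set
open scoped ENNReal

set_option linter.unusedSectionVars false

variable {S : Type*}

instance : IsProbabilityMeasure (expMeasure 1) := isProbabilityMeasure_expMeasure one_pos

lemma lintegral_expMeasure {f : ℝ → ℝ≥0∞} (hf : Measurable f) :
    ∫⁻ x, f x ∂(expMeasure 1) = ∫⁻ x in Set.Ioi 0, ENNReal.ofReal (Real.exp (-x)) * f x := by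
  have h0 : expMeasure 1 = volume.withDensity (exponentialPDF 1) := rfl
  have hm : Measurable (exponentialPDF 1) := (measurable_exponentialPDFReal 1).ennreal_ofReal
  rw [h0, lintegral_withDensity_eq_lintegral_mul _ hm hf, ← lintegral_indicator measurableSet_Ioi]
  refine lintegral_congr_ae ?_
  have h1 : ∀ᵐ x : ℝ, x ≠ 0 := by
    have : volume ({0} : Set ℝ) = 0 := by simp
    exact measure_eq_zero_iff_ae_notMem.1 this
  filter_upwards [h1] with x hx
  rcases lt_or_gt_of_ne hx with h | h
  · rw [indicator_of_notMem (by simpa using h.le), Pi.mul_apply, exponentialPDF_of_neg h, zero_mul]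
  · rw [indicator_of_mem (by exact h), Pi.mul_apply, exponentialPDF_of_nonneg h.le]
    simp

lemma expMeasure_Iio (M : ℝ) (hM : 0 ≤ M) : expMeasure 1 (Set.Iio M) < 1 := by
  have h1 : (expMeasure 1).real (Set.Iic M) = 1 - Real.exp (-M) := by
    have := cdf_expMeasure_eq one_pos M
    rw [if_pos hM, cdf_eq_real] at this
    simpa using this
  have h2 : expMeasure 1 (Set.Iic M) = ENNReal.ofReal (1 - Real.exp (-M)) := by
    rw [← h1]
    exact (ENNReal.ofReal_toReal (measure_ne_top _ _)).symm
  refine lt_of_le_of_lt (measure_mono Iio_subset_Iic_self) ?_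
  rw [h2, ← ENNReal.ofReal_one]
  refine (ENNReal.ofReal_lt_ofReal_iff one_pos).2 ?_
  have := Real.exp_pos (-M)
  linarith

/-- almost surely the inter-arrival times are positive -/
lemma ae_pos : ∀ᵐ x ∂(expMeasure 1), 0 < x := by
  rw [ae_iff]
  have h1 : (expMeasure 1).real (Set.Iic 0) = 0 := by
    have := cdf_expMeasure_eq one_pos 0
    rw [if_pos le_rfl, cdf_eq_real] at this
    simpa using this
  have h2 : {x : ℝ | ¬ 0 < x} = Set.Iic 0 := by ext x; simp
  rw [h2]
  exact (measureReal_eq_zero_iff).1 h1

/-- the law of (inter-arrival time, position) -/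
noncomputable def nu [MeasurableSpace S] (μ : Measure S) : Measure (ℝ × S) :=
  (expMeasure 1).prod μ

instance [MeasurableSpace S] (μ : Measure S) [IsProbabilityMeasure μ] :
    IsProbabilityMeasure (nu μ) := by unfold nu; infer_instance

lemma arrival_cons_zero (e : ℝ × S) (ω : ℕ → ℝ × S) : arrival (Seq.cons (e, ω)) 0 = e.1 := by
  simp [arrival]

lemma arrival_cons_succ (e : ℝ × S) (ω : ℕ → ℝ × S) (i : ℕ) :
    arrival (Seq.cons (e, ω)) (i + 1) = e.1 + arrival ω i := by
  unfold arrival
  rw [Finset.sum_range_succ', Seq.cons_zero, add_comm]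
  rfl

/-- no seed `i < n` arrives at or before its threshold -/
def Gn (n : ℕ) (a : S → ℝ) : Set (ℕ → ℝ × S) := {ω | ∀ i < n, a (ω i).2 < arrival ω i}

/-- no seed arrives at or before its threshold -/
def Ginf (a : S → ℝ) : Set (ℕ → ℝ × S) := {ω | ∀ i, a (ω i).2 < arrival ω i}

lemma cons_mem_Gn (n : ℕ) (a : S → ℝ) (e : ℝ × S) (ω : ℕ → ℝ × S) :
    Seq.cons (e, ω) ∈ Gn (n + 1) a ↔ a e.2 < e.1 ∧ ω ∈ Gn n (fun r => a r - e.1) := by
  constructor
  · intro h
    refine ⟨?_, ?_⟩
    · have := h 0 (Nat.succ_pos n)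
      rwa [arrival_cons_zero] at this
    · intro i hi
      have := h (i + 1) (by omega)
      rw [arrival_cons_succ] at this
      have h2 : (Seq.cons (e, ω) (i + 1)) = ω i := rfl
      rw [h2] at this
      linarith
  · rintro ⟨h0, h⟩ i hi
    cases i with
    | zero => rw [arrival_cons_zero]; exact h0
    | succ i =>
      rw [arrival_cons_succ]
      have h1 := h i (by omega)
      have h2 : (Seq.cons (e, ω) (i + 1)) = ω i := rfl
      rw [h2]
      linarith

variable [Fintype S] [MeasurableSpace S] [MeasurableSingletonClass S]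

lemma measurable_arrival (i : ℕ) : Measurable (fun ω : ℕ → ℝ × S => arrival ω i) := by
  unfold arrival
  exact Finset.measurable_sum _ fun j _ => (measurable_pi_apply j).fst

lemma measurable_of_S (a : S → ℝ) : Measurable a := measurable_of_countable a

lemma measurableSet_Gn (n : ℕ) (a : S → ℝ) : MeasurableSet (Gn n a) := by
  have : Gn n a = ⋂ i ∈ Finset.range n, {ω : ℕ → ℝ × S | a (ω i).2 < arrival ω i} := by
    ext ω
    simp [Gn]
  rw [this]
  refine Finset.measurableSet_biInter _ fun i _ => ?_
  exact measurableSet_lt ((measurable_of_S a).comp (measurable_pi_apply i).snd)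
    (measurable_arrival i)

lemma measurableSet_Ginf (a : S → ℝ) : MeasurableSet (Ginf a) := by
  have : Ginf a = ⋂ i, {ω : ℕ → ℝ × S | a (ω i).2 < arrival ω i} := by
    ext ω
    simp [Ginf]
  rw [this]
  refine MeasurableSet.iInter fun i => ?_
  exact measurableSet_lt ((measurable_of_S a).comp (measurable_pi_apply i).snd)
    (measurable_arrival i)

variable (μ : Measure S) [IsProbabilityMeasure μ]

/-- the weights -/
noncomputable def wt (s : S) : ℝ := (μ {s}).toReal

omit [Fintype S] [MeasurableSingletonClass S] [IsProbabilityMeasure μ] in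
lemma wt_nonneg (s : S) : 0 ≤ wt μ s := ENNReal.toReal_nonneg

lemma wt_sum : ∑ s, wt μ s = 1 := by
  unfold wt
  rw [← ENNReal.toReal_sum (fun s _ => measure_ne_top _ _)]
  have : ∑ s, μ {s} = 1 := by
    have h := measure_univ (μ := μ)
    rw [← h, ← lintegral_one, lintegral_fintype]
    simp
  rw [this]; rfl

lemma ofReal_wt (s : S) : ENNReal.ofReal (wt μ s) = μ {s} :=
  ENNReal.ofReal_toReal (measure_ne_top _ _)

lemma inner_eq (a : S → ℝ) (x : ℝ) :
    ∫⁻ s, (if a s < x then ENNReal.ofReal (hfun (wt μ) (fun r => a r - x)) else 0) ∂μ =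
      ENNReal.ofReal (∑ s, wt μ s * (if a s < x then hfun (wt μ) (fun r => a r - x) else 0)) := by
  rw [lintegral_fintype, ENNReal.ofReal_sum_of_nonneg]
  · refine Finset.sum_congr rfl fun s _ => ?_
    rw [ENNReal.ofReal_mul (wt_nonneg μ s), ofReal_wt, mul_comm]
    congr 1
    split_ifs <;> simp
  · intro s _
    refine mul_nonneg (wt_nonneg μ s) ?_
    split_ifs
    · exact (hfun_pos _ _).le
    · exact le_rfl

/-- the renewal equation for `hfun` -/
lemma renewal (a : S → ℝ) :
    ∫⁻ e : ℝ × S, (if a e.2 < e.1 then ENNReal.ofReal (hfun (wt μ) (fun r => a r - e.1)) else 0)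
      ∂(nu μ) = ENNReal.ofReal (hfun (wt μ) a) := by
  have hm : Measurable (fun e : ℝ × S =>
      (if a e.2 < e.1 then ENNReal.ofReal (hfun (wt μ) (fun r => a r - e.1)) else 0)) := by
    refine Measurable.ite ?_ ?_ measurable_const
    · exact measurableSet_lt ((measurable_of_S a).comp measurable_snd) measurable_fst
    · exact ((continuous_hfun (wt μ) a).measurable.comp measurable_fst).ennreal_ofReal
  rw [nu, lintegral_prod _ hm.aemeasurable]
  simp only [inner_eq]
  rw [lintegral_expMeasure]
  · have h1 : ∀ x : ℝ, ENNReal.ofReal (Real.exp (-x)) * ENNReal.ofReal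
        (∑ s, wt μ s * (if a s < x then hfun (wt μ) (fun r => a r - x) else 0)) =
        ENNReal.ofReal (psi (wt μ) a x) := by
      intro x
      rw [← ENNReal.ofReal_mul (Real.exp_nonneg _)]
      rfl
    simp only [h1]
    rw [← ofReal_integral_eq_lintegral_ofReal, star (wt_nonneg μ) (wt_sum μ)]
    · exact integrableOn_psi (wt_nonneg μ) (wt_sum μ) a 0
    · exact Filter.Eventually.of_forall fun x => psi_nonneg (wt_nonneg μ) a x
  · refine Measurable.ennreal_ofReal (Finset.measurable_sum _ fun s _ => Measurable.const_mul ?_ _)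
    refine Measurable.ite ?_ (continuous_hfun (wt μ) a).measurable measurable_const
    exact measurableSet_lt measurable_const measurable_id

lemma Gn_succ (n : ℕ) (a : S → ℝ) :
    Seq.iid (nu μ) (Gn (n + 1) a) =
      ∫⁻ e : ℝ × S, (if a e.2 < e.1 then Seq.iid (nu μ) (Gn n (fun r => a r - e.1)) else 0)
        ∂(nu μ) := by
  rw [Seq.measure_cons (nu μ) (measurableSet_Gn (n + 1) a)]
  refine lintegral_congr fun e => ?_
  have : {ω | Seq.cons (e, ω) ∈ Gn (n + 1) a} =
      if a e.2 < e.1 then Gn n (fun r => a r - e.1) else ∅ := by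
    ext ω
    rw [mem_ofPred_eq, cons_mem_Gn]
    split_ifs with h
    · simp [h]
    · simp [h]
  rw [this]
  split_ifs with h
  · rfl
  · exact measure_empty

lemma le_Gn (n : ℕ) (a : S → ℝ) :
    ENNReal.ofReal (hfun (wt μ) a) ≤ Seq.iid (nu μ) (Gn n a) := by
  induction n generalizing a with
  | zero =>
    have : Gn 0 a = (Set.univ : Set (ℕ → ℝ × S)) := by ext ω; simp [Gn]
    rw [this, measure_univ]
    rw [← ENNReal.ofReal_one]
    exact ENNReal.ofReal_le_ofReal (hfun_le_one (wt_nonneg μ) a)
  | succ n ih =>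
    rw [Gn_succ, ← renewal]
    refine lintegral_mono fun e => ?_
    split_ifs
    · exact ih _
    · exact le_rfl

lemma Gn_le (n : ℕ) (M : ℝ) (hM : 0 ≤ M) (a : S → ℝ) (ha : ∀ s, a s ≤ M) :
    Seq.iid (nu μ) (Gn n a) ≤ ENNReal.ofReal (hfun (wt μ) a) + (expMeasure 1 (Set.Iio M)) ^ n := by
  induction n generalizing a with
  | zero => rw [pow_zero]; exact prob_le_one.trans le_add_self
  | succ n ih =>
    set q := expMeasure 1 (Set.Iio M) with hq
    rw [Gn_succ, ← renewal]
    have hm : Measurable (fun e : ℝ × S =>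
        (if a e.2 < e.1 then ENNReal.ofReal (hfun (wt μ) (fun r => a r - e.1)) else 0)) := by
      refine Measurable.ite ?_ ?_ measurable_const
      · exact measurableSet_lt ((measurable_of_S a).comp measurable_snd) measurable_fst
      · exact ((continuous_hfun (wt μ) a).measurable.comp measurable_fst).ennreal_ofReal
    have hq2 : ∫⁻ e : ℝ × S, (if e.1 < M then q ^ n else 0) ∂(nu μ) = q ^ (n + 1) := by
      have hm2 : Measurable (fun e : ℝ × S => if e.1 < M then q ^ n else 0) :=
        Measurable.ite (measurableSet_lt measurable_fst measurable_const) measurable_const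
          measurable_const
      rw [nu, lintegral_prod _ hm2.aemeasurable]
      have h3 : ∀ x : ℝ, ∫⁻ _ : S, (if x < M then q ^ n else 0) ∂μ =
          (if x < M then q ^ n else 0) := by
        intro x
        rw [lintegral_const, measure_univ, mul_one]
      rw [lintegral_congr h3]
      have : (fun x : ℝ => if x < M then q ^ n else 0) =
          (Set.Iio M).indicator (fun _ => q ^ n) := by
        ext x
        simp [Set.indicator]
      rw [this, lintegral_indicator_const measurableSet_Iio, ← hq, pow_succ]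
    rw [← hq2, ← lintegral_add_left hm]
    refine lintegral_mono_ae ?_
    have hae : ∀ᵐ e ∂(nu μ), 0 < e.1 := by
      have h1 : ∀ᵐ x ∂((nu μ).map Prod.fst), 0 < x := by
        have : (nu μ).map Prod.fst = expMeasure 1 := by
          rw [nu, Measure.map_fst_prod, measure_univ, one_smul]
        rw [this]; exact ae_pos
      exact ae_of_ae_map measurable_fst.aemeasurable h1
    filter_upwards [hae] with e he
    by_cases h1 : a e.2 < e.1
    · rw [if_pos h1, if_pos h1]
      by_cases h2 : e.1 < M
      · rw [if_pos h2]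
        exact ih _ (fun s => by have := ha s; linarith)
      · rw [if_neg h2, add_zero, hfun_eq_one (fun s => by have := ha s; linarith),
          ENNReal.ofReal_one]
        exact prob_le_one
    · rw [if_neg h1, if_neg h1]
      exact bot_le

/-- The probability that no seed arrives at or before its threshold. -/
theorem measure_Ginf (a : S → ℝ) :
    Seq.iid (nu μ) (Ginf a) = ENNReal.ofReal (hfun (wt μ) a) := by
  obtain ⟨M, hM0, hM⟩ : ∃ M : ℝ, 0 ≤ M ∧ ∀ s, a s ≤ M := by
    refine ⟨∑ s, |a s|, Finset.sum_nonneg fun s _ => abs_nonneg _, fun s => ?_⟩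
    exact (le_abs_self _).trans (Finset.single_le_sum (f := fun s => |a s|)
      (fun s _ => abs_nonneg _) (Finset.mem_univ s))
  have hG : Ginf a = ⋂ n, Gn n a := by
    ext ω
    simp only [Ginf, Gn, mem_ofPred_eq, mem_iInter]
    constructor
    · intro h n i _; exact h i
    · intro h i; exact h (i + 1) i (Nat.lt_succ_self i)
  have hanti : Antitone (fun n => Gn n a) := by
    intro m n hmn ω hω i hi
    exact hω i (by omega)
  have hlim : Filter.Tendsto (fun n => Seq.iid (nu μ) (Gn n a)) Filter.atTop
      (nhds (Seq.iid (nu μ) (⋂ n, Gn n a))) :=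
    tendsto_measure_iInter_atTop (fun n => (measurableSet_Gn n a).nullMeasurableSet) hanti
      ⟨0, measure_ne_top _ _⟩
  have hq : expMeasure 1 (Set.Iio M) < 1 := expMeasure_Iio M hM0
  have hlim2 : Filter.Tendsto (fun n => ENNReal.ofReal (hfun (wt μ) a) +
      (expMeasure 1 (Set.Iio M)) ^ n) Filter.atTop
      (nhds (ENNReal.ofReal (hfun (wt μ) a) + 0)) :=
    (tendsto_const_nhds).add (ENNReal.tendsto_pow_atTop_nhds_zero_of_lt_one hq)
  rw [add_zero] at hlim2
  rw [hG]
  exact tendsto_nhds_unique hlim (tendsto_of_tendsto_of_tendsto_of_le_of_le tendsto_const_nhds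
    hlim2 (fun n => le_Gn μ n a) (fun n => Gn_le μ n M hM0 a hM))

end Q296.Cover
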