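import Pool.Agent.Q296.Seq.Defs

/-!
# Growing random balls
-/

namespace Q296.Cover

open MeasureTheory ProbabilityTheory
open scoped ENNReal

variable {S : Type*}

/-- The arrival time `τ_{i+1}` of the seed number `i + 1`: the sum of the first `i + 1`
inter-arrival times. A configuration `ω` lists the pairs (inter-arrival time, position). -/
def arrival (ω : ℕ → ℝ × S) (i : ℕ) : ℝ := ∑ j ∈ Finset.range (i + 1), (ω j).1

/-- The growth process `X(t)`: the union of the closed balls of radius `v (t - τ_i)` around the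
seeds `σ_i` with `τ_i ≤ t`. -/
def occupied [Dist S] (v : ℝ) (ω : ℕ → ℝ × S) (t : ℝ) : Set S :=
  {y | ∃ i, arrival ω i ≤ t ∧ dist (ω i).2 y ≤ v * (t - arrival ω i)}

/-- The cover time `C = inf {t ≥ 0 : X(t) = S}`. -/
noncomputable def coverTime [Dist S] (v : ℝ) (ω : ℕ → ℝ × S) : ℝ≥0∞ :=
  ⨅ (t : ℝ) (_ : 0 ≤ t ∧ occupied v ω t = Set.univ), ENNReal.ofReal t

/-- The mean cover time `E_μ C`: the inter-arrival times are i.i.d. exponential with rate `lam`
(so the arrival times form a Poisson process of rate `lam`), the positions are i.i.d. with law `μ`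
and independent of the arrival times. -/
noncomputable def meanCover [Dist S] [MeasurableSpace S] (lam v : ℝ) (μ : Measure S) : ℝ≥0∞ :=
  ∫⁻ ω, coverTime v ω ∂(Seq.iid ((expMeasure lam).prod μ))

end Q296.Cover
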