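import Pool.Agent.Q296.Cover.Main

/-!
# The comparison on the cyclic group with four elements
-/

namespace Q296.Cover

open MeasureTheory ProbabilityTheory Set
open scoped ENNReal

lemma lint {a b : ℝ} (hab : a ≤ b) {f F : ℝ → ℝ} (hF : ∀ x, HasDerivAt F (f x) x)
    (hf : Continuous f) (h0 : ∀ x ∈ Ioo a b, 0 ≤ f x) :
    ∫⁻ u in Ioo a b, ENNReal.ofReal (f u) = ENNReal.ofReal (F b - F a) := by
  rw [← intervalIntegral.integral_eq_sub_of_hasDerivAt (fun x _ => hF x)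
    (hf.intervalIntegrable a b), intervalIntegral.integral_of_le hab, integral_Ioc_eq_integral_Ioo,
    ofReal_integral_eq_lintegral_ofReal]
  · exact (hf.integrableOn_Icc).mono_set Ioo_subset_Icc_self
  · filter_upwards [ae_restrict_mem measurableSet_Ioo] with x hx using h0 x hx

lemma dist_facts (s : C4) :
    dist s (s + C4.k 2) = 2 ∧ dist (s + C4.k 1) (s + C4.k 2) = 1 ∧
    dist (s + C4.k 2) (s + C4.k 2) = 0 ∧ dist (s + C4.k 3) (s + C4.k 2) = 1 ∧
    dist s (s + C4.k 1) = 1 ∧ dist (s + C4.k 1) (s + C4.k 1) = 0 ∧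
    dist (s + C4.k 2) (s + C4.k 1) = 1 ∧ dist (s + C4.k 3) (s + C4.k 1) = 2 := by
  have h : ∀ s : C4, C4.gd s (s + C4.k 2) = 2 ∧ C4.gd (s + C4.k 1) (s + C4.k 2) = 1 ∧
    C4.gd (s + C4.k 2) (s + C4.k 2) = 0 ∧ C4.gd (s + C4.k 3) (s + C4.k 2) = 1 ∧
    C4.gd s (s + C4.k 1) = 1 ∧ C4.gd (s + C4.k 1) (s + C4.k 1) = 0 ∧
    C4.gd (s + C4.k 2) (s + C4.k 1) = 1 ∧ C4.gd (s + C4.k 3) (s + C4.k 1) = 2 := by decide
  obtain ⟨h1, h2, h3, h4, h5, h6, h7, h8⟩ := h s
  simp only [C4.dist_eq]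
  refine ⟨?_, ?_, ?_, ?_, ?_, ?_, ?_, ?_⟩
  · rw [h1]; norm_num
  · rw [h2]; norm_num
  · rw [h3]; norm_num
  · rw [h4]; norm_num
  · rw [h5]; norm_num
  · rw [h6]; norm_num
  · rw [h7]; norm_num
  · rw [h8]; norm_num

lemma Ginf_inter {S : Type*} (a b : S → ℝ) : Ginf a ∩ Ginf b = Ginf (fun r => max (a r) (b r)) := by
  ext ω
  simp only [Ginf, mem_inter_iff, mem_ofPred_eq, max_lt_iff]
  constructor
  · rintro ⟨h1, h2⟩ i; exact ⟨h1 i, h2 i⟩
  · intro h; exact ⟨fun i => (h i).1, fun i => (h i).2⟩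

/-! ### Law with all weights `1/4` -/

section uniform

variable (m : Measure C4) [IsProbabilityMeasure m] (hm : ∀ r, wt m r = 1 / 4)

include hm

lemma hfun_far (s : C4) (u : ℝ) (h1 : 1 < u) (h2 : u < 2) :
    hfun (wt m) (fun r => u - dist r (s + C4.k 2)) = Real.exp (-((3 * u - 2) / 4)) := by
  obtain ⟨d1, d2, d3, d4, -⟩ := dist_facts s
  unfold hfun
  rw [C4.sum_eq _ s, hm, hm, hm, hm]
  beta_reduce
  rw [d1, d2, d3, d4, max_eq_right (a := u - 2) (by linarith),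
    max_eq_left (a := u - 1) (by linarith), max_eq_left (a := u - 0) (by linarith)]
  congr 1
  ring

lemma hfun_two (s : C4) (u : ℝ) (h1 : 0 < u) (h2 : u < 1) :
    hfun (wt m) (fun r => u - dist r (s + C4.k 2)) = Real.exp (-(u / 4)) := by
  obtain ⟨d1, d2, d3, d4, -⟩ := dist_facts s
  unfold hfun
  rw [C4.sum_eq _ s, hm, hm, hm, hm]
  beta_reduce
  rw [d1, d2, d3, d4, max_eq_right (a := u - 2) (by linarith),
    max_eq_right (a := u - 1) (by linarith), max_eq_left (a := u - 0) (by linarith)]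
  congr 1
  ring

lemma hfun_one (s : C4) (u : ℝ) (h1 : 0 < u) (h2 : u < 1) :
    hfun (wt m) (fun r => u - dist r (s + C4.k 1)) = Real.exp (-(u / 4)) := by
  obtain ⟨-, -, -, -, d1, d2, d3, d4⟩ := dist_facts s
  unfold hfun
  rw [C4.sum_eq _ s, hm, hm, hm, hm]
  beta_reduce
  rw [d1, d2, d3, d4, max_eq_right (a := u - 1) (by linarith),
    max_eq_left (a := u - 0) (by linarith), max_eq_right (a := u - 2) (by linarith)]
  congr 1
  ring

lemma hfun_both (s : C4) (u : ℝ) (h1 : 0 < u) (h2 : u < 1) :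
    hfun (wt m) (fun r => max (u - dist r (s + C4.k 1)) (u - dist r (s + C4.k 2))) =
      Real.exp (-(u / 2)) := by
  obtain ⟨c1, c2, c3, c4, d1, d2, d3, d4⟩ := dist_facts s
  unfold hfun
  rw [C4.sum_eq _ s, hm, hm, hm, hm]
  beta_reduce
  rw [c1, c2, c3, c4, d1, d2, d3, d4,
    max_eq_left (a := u - 1) (b := u - 2) (by linarith),
    max_eq_right (a := u - 1) (b := 0) (by linarith),
    max_eq_left (a := u - 0) (b := u - 1) (by linarith),
    max_eq_left (a := u - 0) (b := 0) (by linarith),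
    max_eq_right (a := u - 1) (b := u - 0) (by linarith),
    max_eq_left (a := u - 0) (b := 0) (by linarith),
    max_eq_right (a := u - 2) (b := u - 1) (by linarith),
    max_eq_right (a := u - 1) (b := 0) (by linarith)]
  congr 1
  ring

lemma measure_union_GG (s : C4) (u : ℝ) (h1 : 0 < u) (h2 : u < 1) :
    Seq.iid (nu m) (Ginf (fun r => u - dist r (s + C4.k 1)) ∪
      Ginf (fun r => u - dist r (s + C4.k 2))) =
      ENNReal.ofReal (2 * Real.exp (-(u / 4)) - Real.exp (-(u / 2))) := by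
  have hle : Real.exp (-(u / 2)) ≤ Real.exp (-(u / 4)) := Real.exp_le_exp.2 (by linarith)
  have hpos := Real.exp_pos (-(u / 4))
  have h := measure_union_add_inter (μ := Seq.iid (nu m)) (Ginf (fun r => u - dist r (s + C4.k 1)))
    (measurableSet_Ginf (fun r => u - dist r (s + C4.k 2)))
  rw [Ginf_inter, measure_Ginf, measure_Ginf, measure_Ginf, hfun_both m hm s u h1 h2,
    hfun_one m hm s u h1 h2, hfun_two m hm s u h1 h2, ← ENNReal.ofReal_add (by positivity)
    (by positivity)] at h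
  have h3 : ENNReal.ofReal (Real.exp (-(u / 4)) + Real.exp (-(u / 4))) =
      ENNReal.ofReal (2 * Real.exp (-(u / 4)) - Real.exp (-(u / 2))) +
        ENNReal.ofReal (Real.exp (-(u / 2))) := by
    rw [← ENNReal.ofReal_add (by linarith) (by positivity)]
    congr 1; ring
  rw [h3] at h
  exact (ENNReal.add_left_inj ENNReal.ofReal_ne_top).1 h

lemma int_V_far (s : C4) :
    ∫⁻ ω, V (T (C4.k 2)) 1 2 (s, ω) ∂(Seq.iid (nu m)) =
      ENNReal.ofReal ((4 / 3) * (Real.exp (-1 / 4) - Real.exp (-1))) := by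
  rw [lintegral_V (measurableSet_T _)]
  have h1 : ∫⁻ u in Ioo (1 : ℝ) 2, Seq.iid (nu m) {ω | (u, (s, ω)) ∈ T (C4.k 2)} =
      ∫⁻ u in Ioo (1 : ℝ) 2, ENNReal.ofReal (Real.exp (-((3 * u - 2) / 4))) := by
    refine setLIntegral_congr_fun measurableSet_Ioo fun u hu => ?_
    change Seq.iid (nu m) (Ginf (fun r => u - dist r (s + C4.k 2))) = _
    rw [measure_Ginf, hfun_far m hm s u hu.1 hu.2]
  rw [h1, lint (F := fun u => -(4 / 3) * Real.exp (-((3 * u - 2) / 4))) one_le_two]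
  · congr 1
    norm_num
    ring
  · intro x
    have h2 : HasDerivAt (fun u : ℝ => -((3 * u - 2) / 4)) (-(3 / 4)) x :=
      ((((hasDerivAt_id x).const_mul 3).sub_const 2).div_const 4).neg.congr_deriv (by ring)
    exact ((h2.exp).const_mul (-(4 / 3))).congr_deriv (by ring)
  · fun_prop
  · intro x _; positivity

lemma int_V_near (s : C4) :
    ∫⁻ ω, V (T (C4.k 1) ∪ T (C4.k 2)) 0 1 (s, ω) ∂(Seq.iid (nu m)) =
      ENNReal.ofReal (6 - 8 * Real.exp (-1 / 4) + 2 * Real.exp (-1 / 2)) := by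
  rw [lintegral_V ((measurableSet_T _).union (measurableSet_T _))]
  have h1 : ∫⁻ u in Ioo (0 : ℝ) 1, Seq.iid (nu m)
        {ω | (u, (s, ω)) ∈ T (C4.k 1) ∪ T (C4.k 2)} =
      ∫⁻ u in Ioo (0 : ℝ) 1, ENNReal.ofReal (2 * Real.exp (-(u / 4)) - Real.exp (-(u / 2))) := by
    refine setLIntegral_congr_fun measurableSet_Ioo fun u hu => ?_
    change Seq.iid (nu m) (Ginf (fun r => u - dist r (s + C4.k 1)) ∪
      Ginf (fun r => u - dist r (s + C4.k 2))) = _
    rw [measure_union_GG m hm s u hu.1 hu.2]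
  rw [h1, lint (F := fun u => -8 * Real.exp (-(u / 4)) + 2 * Real.exp (-(u / 2))) zero_le_one]
  · congr 1
    norm_num
    ring_nf
  · intro x
    have h2 : HasDerivAt (fun u : ℝ => -(u / 4)) (-(1 / 4)) x :=
      ((hasDerivAt_id x).div_const 4).neg.congr_deriv (by ring)
    have h2' : HasDerivAt (fun u : ℝ => -(u / 2)) (-(1 / 2)) x :=
      ((hasDerivAt_id x).div_const 2).neg.congr_deriv (by ring)
    exact (((h2.exp).const_mul (-8)).add ((h2'.exp).const_mul 2)).congr_deriv (by ring)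
  · fun_prop
  · intro x hx
    have hle : Real.exp (-(x / 2)) ≤ Real.exp (-(x / 4)) := Real.exp_le_exp.2 (by linarith [hx.1])
    have hpos := Real.exp_pos (-(x / 4))
    linarith

end uniform

/-! ### The two-point law -/

/-- The law with mass `1/2` at `0` and at `2`. -/
noncomputable def mu0 : Measure C4 :=
  (2⁻¹ : ℝ≥0∞) • Measure.dirac (0 : C4) + (2⁻¹ : ℝ≥0∞) • Measure.dirac (C4.k 2)

instance : IsProbabilityMeasure mu0 := ⟨by
  simp [mu0, ENNReal.inv_two_add_inv_two]⟩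

lemma mu0_singleton (r : C4) :
    wt mu0 r = (if r = 0 then 1 / 2 else 0) + (if r = C4.k 2 then 1 / 2 else 0) := by
  unfold wt mu0
  have h1 : ∀ a : C4, (Measure.dirac a) {r} = if r = a then (1 : ℝ≥0∞) else 0 := by
    intro a
    rw [Measure.dirac_apply' _ (measurableSet_singleton r)]
    by_cases h : r = a
    · rw [if_pos h, indicator_of_mem (by rw [h]; rfl), Pi.one_apply]
    · rw [if_neg h, indicator_of_notMem (by intro h2; exact h (mem_singleton_iff.1 h2).symm)]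
  rw [Measure.add_apply, Measure.smul_apply, Measure.smul_apply, h1, h1]
  have hk : (0 : C4) ≠ C4.k 2 := by decide
  by_cases ha : r = 0
  · simp [ha, hk]
  · by_cases hb : r = C4.k 2
    · simp [hb, hk.symm]
    · simp [ha, hb]

lemma mu0_far (s : C4) (hs : s = 0 ∨ s = C4.k 2) (u : ℝ) (h1 : 1 < u) (h2 : u < 2) :
    hfun (wt mu0) (fun r => u - dist r (s + C4.k 2)) = Real.exp (-(u / 2)) := by
  obtain ⟨d1, d2, d3, d4, -⟩ := dist_facts s
  have e1 : wt mu0 (s + C4.k 1) = 0 := by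
    rw [mu0_singleton]
    have : ∀ s : C4, (s = 0 ∨ s = C4.k 2) → s + C4.k 1 ≠ 0 ∧ s + C4.k 1 ≠ C4.k 2 := by decide
    rw [if_neg (this s hs).1, if_neg (this s hs).2, add_zero]
  have e3 : wt mu0 (s + C4.k 3) = 0 := by
    rw [mu0_singleton]
    have : ∀ s : C4, (s = 0 ∨ s = C4.k 2) → s + C4.k 3 ≠ 0 ∧ s + C4.k 3 ≠ C4.k 2 := by decide
    rw [if_neg (this s hs).1, if_neg (this s hs).2, add_zero]
  have e2 : wt mu0 (s + C4.k 2) = 1 / 2 := by
    rw [mu0_singleton]
    rcases hs with rfl | rfl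
    · rw [if_neg (by decide), if_pos (by decide), zero_add]
    · rw [if_pos (by decide), if_neg (by decide), add_zero]
  unfold hfun
  rw [C4.sum_eq _ s, e1, e2, e3]
  beta_reduce
  rw [d1, d3, max_eq_right (a := u - 2) (by linarith),
    max_eq_left (a := u - 0) (by linarith)]
  congr 1
  ring

lemma int_V_mu0 (s : C4) (hs : s = 0 ∨ s = C4.k 2) :
    ∫⁻ ω, V (T (C4.k 2)) 1 2 (s, ω) ∂(Seq.iid (nu mu0)) =
      ENNReal.ofReal (2 * (Real.exp (-1 / 2) - Real.exp (-1))) := by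
  rw [lintegral_V (measurableSet_T _)]
  have h1 : ∫⁻ u in Ioo (1 : ℝ) 2, Seq.iid (nu mu0) {ω | (u, (s, ω)) ∈ T (C4.k 2)} =
      ∫⁻ u in Ioo (1 : ℝ) 2, ENNReal.ofReal (Real.exp (-(u / 2))) := by
    refine setLIntegral_congr_fun measurableSet_Ioo fun u hu => ?_
    change Seq.iid (nu mu0) (Ginf (fun r => u - dist r (s + C4.k 2))) = _
    rw [measure_Ginf, mu0_far s hs u hu.1 hu.2]
  rw [h1, lint (F := fun u => -2 * Real.exp (-(u / 2))) one_le_two]
  · congr 1
    norm_num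
    ring_nf
  · intro x
    have h2' : HasDerivAt (fun u : ℝ => -(u / 2)) (-(1 / 2)) x :=
      ((hasDerivAt_id x).div_const 2).neg.congr_deriv (by ring)
    exact ((h2'.exp).const_mul (-2)).congr_deriv (by ring)
  · fun_prop
  · intro x _; positivity

/-! ### The mean of the first inter-arrival time -/

/-- the mean inter-arrival time -/
noncomputable def E1 : ℝ≥0∞ := ∫⁻ x, ENNReal.ofReal x ∂(expMeasure 1)

lemma E1_ne_top : E1 ≠ ∞ := by
  unfold E1
  rw [lintegral_expMeasure ENNReal.measurable_ofReal]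
  have h1 := Real.GammaIntegral_convergent (s := 2) two_pos
  have h2 : ∫⁻ x in Ioi (0 : ℝ), ENNReal.ofReal (Real.exp (-x)) * ENNReal.ofReal x =
      ∫⁻ x in Ioi (0 : ℝ), ENNReal.ofReal (Real.exp (-x) * x ^ ((2 : ℝ) - 1)) := by
    refine setLIntegral_congr_fun measurableSet_Ioi fun x hx => ?_
    rw [ENNReal.ofReal_mul (Real.exp_nonneg _)]
    have : (2 : ℝ) - 1 = 1 := by norm_num
    rw [this, Real.rpow_one]
  rw [h2]
  exact h1.lintegral_lt_top.ne

lemma ae_nu_pos (μ : Measure C4) [IsProbabilityMeasure μ] : ∀ᵐ e ∂(nu μ), 0 < e.1 := by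
  have h1 : ∀ᵐ x ∂((nu μ).map Prod.fst), 0 < x := by
    have : (nu μ).map Prod.fst = expMeasure 1 := by
      rw [nu, Measure.map_fst_prod, measure_univ, one_smul]
    rw [this]; exact ae_pos
  exact ae_of_ae_map measurable_fst.aemeasurable h1

lemma ae_iid_pos (μ : Measure C4) [IsProbabilityMeasure μ] :
    ∀ᵐ ω ∂(Seq.iid (nu μ)), ∀ i, 0 < arrival ω i := by
  have h1 : Seq.iid (nu μ) (Ginf (fun _ : C4 => (0 : ℝ))) = 1 := by
    rw [measure_Ginf, hfun_eq_one (fun _ => le_rfl), ENNReal.ofReal_one]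
  have h2 := (prob_compl_eq_zero_iff (measurableSet_Ginf (fun _ : C4 => (0 : ℝ)))).2 h1
  exact h2

lemma lintegral_nu (μ : Measure C4) [IsProbabilityMeasure μ] (g : ℝ → ℝ≥0∞) (hg : Measurable g)
    (Φ : C4 → ℝ≥0∞) :
    ∫⁻ e, (g e.1 + Φ e.2) ∂(nu μ) = ∫⁻ x, g x ∂(expMeasure 1) + ∫⁻ s, Φ s ∂μ := by
  have hΦ : Measurable Φ := measurable_of_countable Φ
  have h1 : Measurable (fun e : ℝ × C4 => g e.1) := hg.comp measurable_fst
  have h2 : Measurable (fun e : ℝ × C4 => Φ e.2) := hΦ.comp measurable_snd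
  rw [lintegral_add_left h1, nu, lintegral_prod _ h1.aemeasurable, lintegral_prod _ h2.aemeasurable]
  simp only [lintegral_const, measure_univ, mul_one]

theorem upper_mu0 :
    meanCover 1 1 mu0 ≤
      E1 + (1 + ENNReal.ofReal (2 * (Real.exp (-1 / 2) - Real.exp (-1)))) := by
  rw [meanCover_eq]
  have hU : Measurable (fun p : (ℝ × C4) × (ℕ → ℝ × C4) =>
      ENNReal.ofReal p.1.1 + 1 + V (T (C4.k 2)) 1 2 (p.1.2, p.2)) := by
    refine ((ENNReal.measurable_ofReal.comp measurable_fst.fst).add_const 1).add ?_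
    have h3 : Measurable (fun p : (ℝ × C4) × (ℕ → ℝ × C4) => (p.1.2, p.2)) :=
      measurable_fst.snd.prodMk measurable_snd
    have h4 := (measurable_V (measurableSet_T (C4.k 2)) 1 2).comp h3
    exact h4
  calc ∫⁻ p, coverTime 1 (Seq.cons p) ∂((nu mu0).prod (Seq.iid (nu mu0)))
      ≤ ∫⁻ p, (ENNReal.ofReal p.1.1 + 1 + V (T (C4.k 2)) 1 2 (p.1.2, p.2))
          ∂((nu mu0).prod (Seq.iid (nu mu0))) := by
        refine lintegral_mono_ae ?_
        have h5 : ∀ᵐ p ∂((nu mu0).prod (Seq.iid (nu mu0))), 0 < p.1.1 := by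
          exact Measure.quasiMeasurePreserving_fst.ae (ae_nu_pos mu0)
        filter_upwards [h5] with p hp
        exact upper p.1 hp p.2
    _ = ∫⁻ e, ∫⁻ ω, (ENNReal.ofReal e.1 + 1 + V (T (C4.k 2)) 1 2 (e.2, ω))
          ∂(Seq.iid (nu mu0)) ∂(nu mu0) := lintegral_prod _ hU.aemeasurable
    _ = ∫⁻ e, ((ENNReal.ofReal e.1 + 1) + ∫⁻ ω, V (T (C4.k 2)) 1 2 (e.2, ω)
          ∂(Seq.iid (nu mu0))) ∂(nu mu0) := by
        refine lintegral_congr fun e => ?_
        rw [lintegral_add_left measurable_const, lintegral_const, measure_univ, mul_one]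
    _ = ∫⁻ x, (ENNReal.ofReal x + 1) ∂(expMeasure 1) +
          ∫⁻ s, ∫⁻ ω, V (T (C4.k 2)) 1 2 (s, ω) ∂(Seq.iid (nu mu0)) ∂mu0 :=
        lintegral_nu mu0 (fun x => ENNReal.ofReal x + 1) (ENNReal.measurable_ofReal.add_const 1)
          (fun s => ∫⁻ ω, V (T (C4.k 2)) 1 2 (s, ω) ∂(Seq.iid (nu mu0)))
    _ = (E1 + 1) + ENNReal.ofReal (2 * (Real.exp (-1 / 2) - Real.exp (-1))) := by
        congr 1
        · rw [lintegral_add_right _ measurable_const, lintegral_const, measure_univ, mul_one]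
          rfl
        · unfold mu0
          rw [lintegral_add_measure, lintegral_smul_measure, lintegral_smul_measure,
            lintegral_dirac, lintegral_dirac]
          change (2⁻¹ : ℝ≥0∞) • ∫⁻ ω, V (T (C4.k 2)) 1 2 (0, ω) ∂(Seq.iid (nu mu0)) +
            (2⁻¹ : ℝ≥0∞) • ∫⁻ ω, V (T (C4.k 2)) 1 2 (C4.k 2, ω) ∂(Seq.iid (nu mu0)) = _
          rw [int_V_mu0 0 (Or.inl rfl), int_V_mu0 (C4.k 2) (Or.inr rfl), smul_eq_mul, ← add_mul,
            ENNReal.inv_two_add_inv_two, one_mul]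
    _ = _ := by rw [add_assoc]

theorem lower_unif (m : Measure C4) [IsProbabilityMeasure m] (hm : ∀ r, wt m r = 1 / 4) :
    E1 + (ENNReal.ofReal (6 - 8 * Real.exp (-1 / 4) + 2 * Real.exp (-1 / 2)) +
      ENNReal.ofReal ((4 / 3) * (Real.exp (-1 / 4) - Real.exp (-1)))) ≤ meanCover 1 1 m := by
  rw [meanCover_eq]
  have h3 : Measurable (fun p : (ℝ × C4) × (ℕ → ℝ × C4) => (p.1.2, p.2)) :=
    measurable_fst.snd.prodMk measurable_snd
  have h4 := (measurable_V (measurableSet_T (C4.k 2)) 1 2).comp h3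
  have h4' := (measurable_V ((measurableSet_T (C4.k 1)).union (measurableSet_T (C4.k 2))) 0 1).comp h3
  have hU : Measurable (fun p : (ℝ × C4) × (ℕ → ℝ × C4) =>
      ENNReal.ofReal p.1.1 + (V (T (C4.k 1) ∪ T (C4.k 2)) 0 1 (p.1.2, p.2) +
        V (T (C4.k 2)) 1 2 (p.1.2, p.2))) :=
    (ENNReal.measurable_ofReal.comp measurable_fst.fst).add (h4'.add h4)
  have hsec : ∀ s : C4, Measurable (fun ω : ℕ → ℝ × C4 => V (T (C4.k 1) ∪ T (C4.k 2)) 0 1 (s, ω)) := by
    intro s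
    have h7 : Measurable (fun ω : ℕ → ℝ × C4 => (s, ω)) := measurable_const.prodMk measurable_id
    have h8 := (measurable_V ((measurableSet_T (C4.k 1)).union (measurableSet_T (C4.k 2))) 0 1).comp h7
    exact h8
  calc _ = E1 + ∫⁻ s : C4, (∫⁻ ω, V (T (C4.k 1) ∪ T (C4.k 2)) 0 1 (s, ω) ∂(Seq.iid (nu m)) +
          ∫⁻ ω, V (T (C4.k 2)) 1 2 (s, ω) ∂(Seq.iid (nu m))) ∂m := by
        congr 1
        simp only [int_V_near m hm, int_V_far m hm]
        rw [lintegral_const, measure_univ, mul_one]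
    _ = ∫⁻ e, (ENNReal.ofReal e.1 + (∫⁻ ω, V (T (C4.k 1) ∪ T (C4.k 2)) 0 1 (e.2, ω)
          ∂(Seq.iid (nu m)) + ∫⁻ ω, V (T (C4.k 2)) 1 2 (e.2, ω) ∂(Seq.iid (nu m)))) ∂(nu m) :=
        (lintegral_nu m (fun x => ENNReal.ofReal x) ENNReal.measurable_ofReal
          (fun s => (∫⁻ ω, V (T (C4.k 1) ∪ T (C4.k 2)) 0 1 (s, ω) ∂(Seq.iid (nu m)) +
          ∫⁻ ω, V (T (C4.k 2)) 1 2 (s, ω) ∂(Seq.iid (nu m))))).symm
    _ = ∫⁻ e, ∫⁻ ω, (ENNReal.ofReal e.1 + (V (T (C4.k 1) ∪ T (C4.k 2)) 0 1 (e.2, ω) +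
          V (T (C4.k 2)) 1 2 (e.2, ω))) ∂(Seq.iid (nu m)) ∂(nu m) := by
        refine lintegral_congr fun e => ?_
        rw [lintegral_add_left measurable_const, lintegral_const, measure_univ, mul_one,
          lintegral_add_left (hsec e.2)]
    _ = ∫⁻ p, (ENNReal.ofReal p.1.1 + (V (T (C4.k 1) ∪ T (C4.k 2)) 0 1 (p.1.2, p.2) +
          V (T (C4.k 2)) 1 2 (p.1.2, p.2))) ∂((nu m).prod (Seq.iid (nu m))) :=
        (lintegral_prod _ hU.aemeasurable).symm
    _ ≤ ∫⁻ p, coverTime 1 (Seq.cons p) ∂((nu m).prod (Seq.iid (nu m))) := by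
        refine lintegral_mono_ae ?_
        have h5 : ∀ᵐ p ∂((nu m).prod (Seq.iid (nu m))), 0 < p.1.1 :=
          Measure.quasiMeasurePreserving_fst.ae (ae_nu_pos m)
        have h6 : ∀ᵐ p ∂((nu m).prod (Seq.iid (nu m))), ∀ i, 0 < arrival p.2 i :=
          Measure.quasiMeasurePreserving_snd.ae (ae_iid_pos m)
        filter_upwards [h5, h6] with p hp hp2
        exact lower p.1 hp p.2 hp2

lemma numeric : 1 + ENNReal.ofReal (2 * (Real.exp (-1 / 2) - Real.exp (-1))) <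
    ENNReal.ofReal (6 - 8 * Real.exp (-1 / 4) + 2 * Real.exp (-1 / 2)) +
      ENNReal.ofReal ((4 / 3) * (Real.exp (-1 / 4) - Real.exp (-1))) := by
  set x := Real.exp (-1 / 4) with hx
  have hx0 : 0 < x := Real.exp_pos _
  have h2 : Real.exp (-1 / 2) = x ^ 2 := by
    rw [hx, ← Real.exp_nat_mul]; norm_num
  have h4 : Real.exp (-1) = x ^ 4 := by
    rw [hx, ← Real.exp_nat_mul]; norm_num
  have hlo := Real.exp_neg_one_gt_d9
  have hhi := Real.exp_neg_one_lt_d9
  rw [h4] at hlo hhi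
  have hxlt : x < 0.7789 := by
    refine lt_of_pow_lt_pow_left₀ 4 (by norm_num) ?_
    refine hhi.trans ?_
    norm_num
  have hxgt : 0.7 < x := by
    refine lt_of_pow_lt_pow_left₀ 4 hx0.le ?_
    refine lt_trans ?_ hlo
    norm_num
  rw [h2, h4, ← ENNReal.ofReal_one, ← ENNReal.ofReal_add zero_le_one
    (by nlinarith [mul_pos hx0 hx0]), ← ENNReal.ofReal_add (by nlinarith) (by nlinarith)]
  rw [ENNReal.ofReal_lt_ofReal_iff (by nlinarith)]
  nlinarith

/-- The uniform distribution has mass `1/4` at each point. -/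
lemma wt_of_invariant (m : Measure C4) [IsProbabilityMeasure m]
    (hm : ∀ g : C4, m.map (fun x => g + x) = m) (r : C4) : wt m r = 1 / 4 := by
  have h1 : ∀ r s : C4, wt m r = wt m s := by
    intro r s
    unfold wt
    congr 1
    have hmeas : Measurable (fun x : C4 => (s - r) + x) := measurable_of_countable _
    have h2 : m.map (fun x => (s - r) + x) {s} = m {s} := by rw [hm (s - r)]
    rw [Measure.map_apply hmeas (measurableSet_singleton s)] at h2
    rw [← h2]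
    congr 1
    ext x
    simp only [mem_singleton_iff, mem_preimage]
    constructor
    · rintro rfl; abel
    · intro h
      have h3 : x = s - (s - r) := eq_sub_of_add_eq' h
      rw [h3, sub_sub_cancel]
  have h3 := wt_sum m
  have h4 : ∑ s : C4, wt m s = ∑ _s : C4, wt m r := Finset.sum_congr rfl fun s _ => h1 s r
  rw [h4, Finset.sum_const, Finset.card_univ] at h3
  have h5 : Fintype.card C4 = 4 := rfl
  rw [h5, nsmul_eq_mul] at h3
  push_cast at h3
  linarith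

theorem main (m : Measure C4) [IsProbabilityMeasure m]
    (hm : ∀ g : C4, m.map (fun x => g + x) = m) :
    meanCover 1 1 mu0 < meanCover 1 1 m := by
  refine lt_of_le_of_lt upper_mu0 (lt_of_lt_of_le ?_ (lower_unif m (wt_of_invariant m hm)))
  exact ENNReal.add_lt_add_left E1_ne_top numeric

end Q296.Cover
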