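import Mathlib

/-!
# The cyclic group with four elements and its graph metric
-/

namespace Q296.Cover

open MeasureTheory Set
open scoped ENNReal

/-- The cyclic group with four elements. -/
def C4 : Type := ZMod 4

namespace C4

instance : AddCommGroup C4 := inferInstanceAs (AddCommGroup (ZMod 4))
instance : DecidableEq C4 := inferInstanceAs (DecidableEq (ZMod 4))
instance : Fintype C4 := inferInstanceAs (Fintype (ZMod 4))

/-- The graph distance of the 4-cycle: the distance from `x - y` to `0` modulo `4`. -/
def gd (x y : C4) : ℕ := (ZMod.valMinAbs (n := 4) (x - y : C4)).natAbs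

lemma gd_self (x : C4) : gd x x = 0 := by revert x; decide
lemma gd_comm (x y : C4) : gd x y = gd y x := by revert x y; decide
lemma gd_tri (x y z : C4) : gd x z ≤ gd x y + gd y z := by revert x y z; decide
lemma gd_eq (x y : C4) (h : gd x y = 0) : x = y := by revert x y; decide
lemma gd_inv (g x y : C4) : gd (g + x) (g + y) = gd x y := by revert g x y; decide
lemma gd_le (x y : C4) : gd x y ≤ 2 := by revert x y; decide

/-- The elements `0, 1, 2, 3` -/
def k (i : Fin 4) : C4 := (i : ZMod 4)

end C4

/-- The metric space structure given by the graph distance of the 4-cycle. -/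
noncomputable instance C4.instMetricSpace : MetricSpace C4 where
  dist x y := (C4.gd x y : ℝ)
  dist_self x := by simp [C4.gd_self]
  dist_comm x y := by simp [C4.gd_comm x y]
  dist_triangle x y z := by exact_mod_cast C4.gd_tri x y z
  eq_of_dist_eq_zero {x y} h := C4.gd_eq x y (by exact_mod_cast h)

instance C4.instTopGroup : IsTopologicalAddGroup C4 where
  continuous_add := continuous_of_discreteTopology
  continuous_neg := continuous_of_discreteTopology

noncomputable instance C4.instMeasurableSpace : MeasurableSpace C4 := borel C4

instance : BorelSpace C4 := ⟨rfl⟩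

instance C4.instCompact : CompactSpace C4 := Finite.compactSpace

lemma C4.dist_eq (x y : C4) : dist x y = (C4.gd x y : ℝ) := rfl

lemma C4.sum_eq (f : C4 → ℝ) (s : C4) :
    ∑ r, f r = f s + f (s + C4.k 1) + f (s + C4.k 2) + f (s + C4.k 3) := by
  have h : ∑ r, f r = ∑ i : Fin 4, f (s + C4.k i) := by
    symm
    refine Fintype.sum_bijective (fun i : Fin 4 => s + C4.k i) ?_ _ _ (fun _ => rfl)
    constructor
    · intro a b; revert a b s; decide
    · intro a; revert a s; decide
  rw [h, Fin.sum_univ_four]
  have h0 : ∀ s : C4, s + C4.k 0 = s := by decide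
  rw [h0]

end Q296.Cover
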