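import Pool.Agent.Q296.Cover.Four
import Pool.Agent.Q296.Cover.Mark

/-!
# The uniform measure does not minimize the mean cover time
-/

namespace Q296.Cover

open MeasureTheory ProbabilityTheory Set
open scoped ENNReal

section general

variable {S : Type*} [PseudoMetricSpace S]

lemma mem_occupied_iff (ω : ℕ → ℝ × S) (t : ℝ) (y : S) :
    y ∈ occupied 1 ω t ↔ ∃ i, arrival ω i ≤ t - dist (ω i).2 y := by
  simp only [occupied, one_mul, mem_ofPred_eq]
  constructor
  · rintro ⟨i, _, h2⟩; exact ⟨i, by linarith⟩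
  · rintro ⟨i, h⟩
    have := dist_nonneg (x := (ω i).2) (y := y)
    exact ⟨i, by linarith, by linarith⟩

lemma notMem_occupied_iff (ω : ℕ → ℝ × S) (t : ℝ) (y : S) :
    y ∉ occupied 1 ω t ↔ ω ∈ Ginf (fun r => t - dist r y) := by
  rw [mem_occupied_iff]
  push Not
  rfl

lemma occupied_mono (ω : ℕ → ℝ × S) {t t' : ℝ} (h : t ≤ t') :
    occupied 1 ω t ⊆ occupied 1 ω t' := by
  intro y hy
  rw [mem_occupied_iff] at hy ⊢
  obtain ⟨i, hi⟩ := hy
  exact ⟨i, by linarith⟩

lemma mem_occupied_cons (e : ℝ × S) (ω : ℕ → ℝ × S) (t : ℝ) (y : S) :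
    y ∈ occupied 1 (Seq.cons (e, ω)) t ↔ dist e.2 y ≤ t - e.1 ∨ y ∈ occupied 1 ω (t - e.1) := by
  rw [mem_occupied_iff, mem_occupied_iff]
  constructor
  · rintro ⟨i, hi⟩
    cases i with
    | zero =>
      left
      rw [arrival_cons_zero] at hi
      have h2 : (Seq.cons (e, ω) 0) = e := rfl
      rw [h2] at hi
      linarith
    | succ i =>
      right
      rw [arrival_cons_succ] at hi
      have h2 : (Seq.cons (e, ω) (i + 1)) = ω i := rfl
      rw [h2] at hi
      exact ⟨i, by linarith⟩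
  · rintro (h | ⟨i, hi⟩)
    · refine ⟨0, ?_⟩
      rw [arrival_cons_zero]
      have h2 : (Seq.cons (e, ω) 0) = e := rfl
      rw [h2]
      linarith
    · refine ⟨i + 1, ?_⟩
      rw [arrival_cons_succ]
      have h2 : (Seq.cons (e, ω) (i + 1)) = ω i := rfl
      rw [h2]
      linarith

end general

/-- the measurable equivalence given by `cons` -/
noncomputable def consEquiv (E : Type*) [MeasurableSpace E] : E × (ℕ → E) ≃ᵐ (ℕ → E) where
  toFun := Seq.cons
  invFun ω := (ω 0, fun n => ω (n + 1))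
  left_inv x := rfl
  right_inv ω := by
    funext n
    cases n <;> rfl
  measurable_toFun := Seq.measurable_cons
  measurable_invFun := by
    refine (measurable_pi_apply 0).prodMk ?_
    exact measurable_pi_lambda _ fun n => measurable_pi_apply (n + 1)

lemma meanCover_eq (μ : Measure C4) [IsProbabilityMeasure μ] :
    meanCover 1 1 μ =
      ∫⁻ p, coverTime 1 (Seq.cons p) ∂((nu μ).prod (Seq.iid (nu μ))) := by
  unfold meanCover
  have h0 : Seq.iid ((expMeasure 1).prod μ) =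
      ((nu μ).prod (Seq.iid (nu μ))).map (consEquiv (ℝ × C4)) := (Seq.map_cons (nu μ)).symm
  rw [h0, lintegral_map_equiv]
  rfl

/-- the bad set: the point `s + c` is not occupied at time `u` -/
def T (c : C4) : Set (ℝ × (C4 × (ℕ → ℝ × C4))) :=
  {p | p.2.2 ∈ Ginf (fun r => p.1 - dist r (p.2.1 + c))}

lemma measurableSet_T (c : C4) : MeasurableSet (T c) := by
  have : T c = ⋂ i, {p : ℝ × (C4 × (ℕ → ℝ × C4)) |
      p.1 - dist (p.2.2 i).2 (p.2.1 + c) < arrival p.2.2 i} := by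
    ext p
    simp [T, Ginf]
  rw [this]
  refine MeasurableSet.iInter fun i => measurableSet_lt (measurable_fst.sub ?_) ?_
  · have h0 : ∀ f : C4 × C4 → ℝ, Measurable f := fun f => measurable_of_countable f
    have h1 : Measurable (fun q : C4 × C4 => dist q.1 (q.2 + c)) := h0 _
    have h2 : Measurable (fun p : ℝ × (C4 × (ℕ → ℝ × C4)) => (p.2.2 i)) :=
      (measurable_pi_apply i).comp (measurable_snd.comp measurable_snd)
    have h3 : Measurable (fun p : ℝ × (C4 × (ℕ → ℝ × C4)) => ((p.2.2 i).2, p.2.1)) :=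
      h2.snd.prodMk (measurable_fst.comp measurable_snd)
    have h5 := h1.comp h3
    exact h5
  · have h4 : Measurable (fun p : ℝ × (C4 × (ℕ → ℝ × C4)) => p.2.2) :=
      measurable_snd.comp measurable_snd
    exact (measurable_arrival i).comp h4

/-- the time spent in a bad set -/
noncomputable def V (A : Set (ℝ × (C4 × (ℕ → ℝ × C4)))) (a b : ℝ) (x : C4 × (ℕ → ℝ × C4)) : ℝ≥0∞ :=
  (volume.restrict (Ioo a b)) ((fun u => (u, x)) ⁻¹' A)

lemma measurable_V {A : Set (ℝ × (C4 × (ℕ → ℝ × C4)))} (hA : MeasurableSet A) (a b : ℝ) :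
    Measurable (V A a b) := measurable_measure_prodMk_right hA

lemma lintegral_V {A : Set (ℝ × (C4 × (ℕ → ℝ × C4)))} (hA : MeasurableSet A) (a b : ℝ)
    (P : Measure (ℕ → ℝ × C4)) [IsProbabilityMeasure P] (s : C4) :
    ∫⁻ ω, V A a b (s, ω) ∂P = ∫⁻ u in Ioo a b, P {ω | (u, (s, ω)) ∈ A} := by
  have hm : Measurable (fun q : ℝ × (ℕ → ℝ × C4) => (q.1, (s, q.2))) :=
    measurable_fst.prodMk (measurable_const.prodMk measurable_snd)
  have hB : MeasurableSet ((fun q : ℝ × (ℕ → ℝ × C4) => (q.1, (s, q.2))) ⁻¹' A) := hm hA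
  have h1 := Measure.prod_apply (μ := volume.restrict (Ioo a b)) (ν := P) hB
  have h2 := Measure.prod_apply_symm (μ := volume.restrict (Ioo a b)) (ν := P) hB
  calc ∫⁻ ω, V A a b (s, ω) ∂P = ∫⁻ ω, (volume.restrict (Ioo a b)) ((fun x => (x, ω)) ⁻¹'
        ((fun q : ℝ × (ℕ → ℝ × C4) => (q.1, (s, q.2))) ⁻¹' A)) ∂P := by
        refine lintegral_congr fun ω => ?_
        unfold V
        congr 1
    _ = ∫⁻ x in Ioo a b, P (Prod.mk x ⁻¹'
        ((fun q : ℝ × (ℕ → ℝ × C4) => (q.1, (s, q.2))) ⁻¹' A)) := by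
        rw [← h2, h1]
    _ = ∫⁻ u in Ioo a b, P {ω | (u, (s, ω)) ∈ A} := by
        refine lintegral_congr fun ω => ?_
        congr 1

/-! ### Upper bound -/

lemma upper (e : ℝ × C4) (he : 0 < e.1) (ω : ℕ → ℝ × C4) :
    coverTime 1 (Seq.cons (e, ω)) ≤
      ENNReal.ofReal e.1 + 1 + V (T (C4.k 2)) 1 2 (e.2, ω) := by
  have hcov : ∀ t : ℝ, 0 ≤ t → occupied 1 (Seq.cons (e, ω)) t = Set.univ →
      coverTime 1 (Seq.cons (e, ω)) ≤ ENNReal.ofReal t := by
    intro t h0 h1
    unfold coverTime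
    exact iInf₂_le t ⟨h0, h1⟩
  have hdist : ∀ y : C4, dist e.2 y ≤ 2 := by
    intro y
    rw [C4.dist_eq]
    exact_mod_cast C4.gd_le _ _
  have h2 : coverTime 1 (Seq.cons (e, ω)) ≤ ENNReal.ofReal (e.1 + 2) := by
    refine hcov _ (by linarith) ?_
    rw [Set.eq_univ_iff_forall]
    intro y
    rw [mem_occupied_cons]
    left
    have := hdist y
    linarith
  have hfin : coverTime 1 (Seq.cons (e, ω)) ≠ ∞ := ne_top_of_le_ne_top ENNReal.ofReal_ne_top h2
  set c := (coverTime 1 (Seq.cons (e, ω))).toReal with hc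
  have hcC : ENNReal.ofReal c = coverTime 1 (Seq.cons (e, ω)) := ENNReal.ofReal_toReal hfin
  have hc2 : c ≤ e.1 + 2 := by
    rw [hc]
    exact ENNReal.toReal_le_of_le_ofReal (by linarith) h2
  have hsub : Ioo 1 (c - e.1) ⊆ (fun u => (u, ((e.2, ω) : C4 × (ℕ → ℝ × C4)))) ⁻¹' T (C4.k 2) := by
    intro u hu
    change ω ∈ Ginf (fun r => u - dist r (e.2 + C4.k 2))
    rw [← notMem_occupied_iff]
    intro hocc
    have h3 : coverTime 1 (Seq.cons (e, ω)) ≤ ENNReal.ofReal (e.1 + u) := by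
      refine hcov _ (by linarith [hu.1]) ?_
      rw [Set.eq_univ_iff_forall]
      intro y
      rw [mem_occupied_cons]
      have h4 : e.1 + u - e.1 = u := by ring
      rw [h4]
      by_cases hy : y = e.2 + C4.k 2
      · right; rw [hy]; exact hocc
      · left
        have h5 : ∀ s y : C4, y ≠ s + C4.k 2 → C4.gd s y ≤ 1 := by decide
        have h6 : dist e.2 y ≤ 1 := by
          rw [C4.dist_eq]
          exact_mod_cast h5 _ _ hy
        linarith [hu.1]
    have h7 : c ≤ e.1 + u := by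
      rw [hc]
      exact ENNReal.toReal_le_of_le_ofReal (by linarith [hu.1]) h3
    linarith [hu.2]
  have hV : ENNReal.ofReal (c - e.1 - 1) ≤ V (T (C4.k 2)) 1 2 (e.2, ω) := by
    unfold V
    refine le_trans ?_ (measure_mono hsub)
    rw [Measure.restrict_apply measurableSet_Ioo]
    have : Ioo 1 (c - e.1) ∩ Ioo 1 2 = Ioo 1 (c - e.1) := by
      refine inter_eq_left.2 ?_
      exact Ioo_subset_Ioo_right (by linarith)
    rw [this, Real.volume_Ioo]
  calc coverTime 1 (Seq.cons (e, ω)) = ENNReal.ofReal c := hcC.symm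
    _ = ENNReal.ofReal (e.1 + 1 + (c - e.1 - 1)) := by congr 1; ring
    _ ≤ ENNReal.ofReal (e.1 + 1) + ENNReal.ofReal (c - e.1 - 1) := ENNReal.ofReal_add_le
    _ ≤ ENNReal.ofReal e.1 + ENNReal.ofReal 1 + ENNReal.ofReal (c - e.1 - 1) := by
        gcongr
        exact ENNReal.ofReal_add_le
    _ ≤ ENNReal.ofReal e.1 + 1 + V (T (C4.k 2)) 1 2 (e.2, ω) := by
        rw [ENNReal.ofReal_one]
        gcongr

/-! ### Lower bound -/

lemma lower (e : ℝ × C4) (he : 0 < e.1) (ω : ℕ → ℝ × C4) (hω : ∀ i, 0 < arrival ω i) :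
    ENNReal.ofReal e.1 + (V (T (C4.k 1) ∪ T (C4.k 2)) 0 1 (e.2, ω) + V (T (C4.k 2)) 1 2 (e.2, ω)) ≤
      coverTime 1 (Seq.cons (e, ω)) := by
  unfold coverTime
  refine le_iInf₂ fun t ht => ?_
  obtain ⟨h0, hu⟩ := ht
  have hall : ∀ y, y ∈ occupied 1 (Seq.cons (e, ω)) t := fun y => by rw [hu]; exact mem_univ y
  have hocc0 : ∀ (u : ℝ) (y : C4), y ∈ occupied 1 ω u → 0 < u := by
    intro u y hy
    rw [mem_occupied_iff] at hy
    obtain ⟨i, hi⟩ := hy
    have := hω i
    have := dist_nonneg (x := (ω i).2) (y := y)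
    linarith
  have hte : e.1 ≤ t := by
    have h1 := hall e.2
    rw [mem_occupied_cons] at h1
    rcases h1 with h1 | h1
    · rw [dist_self] at h1; linarith
    · have := hocc0 _ _ h1; linarith
  set u := t - e.1 with hudef
  have hu0 : 0 ≤ u := by linarith
  have hcover : ∀ y, dist e.2 y ≤ u ∨ y ∈ occupied 1 ω u := by
    intro y
    have := hall y
    rw [mem_occupied_cons] at this
    exact this
  have hd1 : dist e.2 (e.2 + C4.k 1) = 1 := by
    have : ∀ s : C4, C4.gd s (s + C4.k 1) = 1 := by decide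
    rw [C4.dist_eq, this]; norm_num
  have hd2 : dist e.2 (e.2 + C4.k 2) = 2 := by
    have : ∀ s : C4, C4.gd s (s + C4.k 2) = 2 := by decide
    rw [C4.dist_eq, this]; norm_num
  have hA1 : ((fun u => (u, ((e.2, ω) : C4 × (ℕ → ℝ × C4)))) ⁻¹' (T (C4.k 1) ∪ T (C4.k 2))) ∩ Ioo 0 1
      ⊆ Iic u ∩ Ioo 0 1 := by
    rintro w ⟨hw, hw01⟩
    refine ⟨?_, hw01⟩
    rw [mem_Iic]
    by_contra hcon
    push Not at hcon
    rcases hw with hw | hw
    · have h3 : e.2 + C4.k 1 ∉ occupied 1 ω w := (notMem_occupied_iff _ _ _).2 hw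
      rcases hcover (e.2 + C4.k 1) with h4 | h4
      · rw [hd1] at h4; linarith [hw01.2]
      · exact h3 (occupied_mono ω hcon.le h4)
    · have h3 : e.2 + C4.k 2 ∉ occupied 1 ω w := (notMem_occupied_iff _ _ _).2 hw
      rcases hcover (e.2 + C4.k 2) with h4 | h4
      · rw [hd2] at h4; linarith [hw01.2]
      · exact h3 (occupied_mono ω hcon.le h4)
  have hA2 : ((fun u => (u, ((e.2, ω) : C4 × (ℕ → ℝ × C4)))) ⁻¹' (T (C4.k 2))) ∩ Ioo 1 2
      ⊆ Iic u ∩ Ioo 1 2 := by
    rintro w ⟨hw, hw01⟩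
    refine ⟨?_, hw01⟩
    rw [mem_Iic]
    by_contra hcon
    push Not at hcon
    have h3 : e.2 + C4.k 2 ∉ occupied 1 ω w := (notMem_occupied_iff _ _ _).2 hw
    rcases hcover (e.2 + C4.k 2) with h4 | h4
    · rw [hd2] at h4; linarith [hw01.2]
    · exact h3 (occupied_mono ω hcon.le h4)
  have hsum : V (T (C4.k 1) ∪ T (C4.k 2)) 0 1 (e.2, ω) + V (T (C4.k 2)) 1 2 (e.2, ω) ≤
      ENNReal.ofReal u := by
    unfold V
    rw [Measure.restrict_apply' measurableSet_Ioo, Measure.restrict_apply' measurableSet_Ioo]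
    calc _ ≤ volume (Iic u ∩ Ioo 0 1) + volume (Iic u ∩ Ioo 1 2) := by
          gcongr
      _ = volume ((Iic u ∩ Ioo 0 1) ∪ (Iic u ∩ Ioo 1 2)) := by
          rw [measure_union _ (measurableSet_Iic.inter measurableSet_Ioo)]
          rw [Set.disjoint_left]
          rintro w ⟨_, h1⟩ ⟨_, h2⟩
          linarith [h1.2, h2.1]
      _ ≤ volume (Ioc 0 u) := by
          refine measure_mono ?_
          rintro w (⟨h1, h2⟩ | ⟨h1, h2⟩)
          · exact ⟨h2.1, h1⟩
          · exact ⟨by linarith [h2.1], h1⟩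
      _ = ENNReal.ofReal u := by rw [Real.volume_Ioc, sub_zero]
  calc _ ≤ ENNReal.ofReal e.1 + ENNReal.ofReal u := by gcongr
    _ = ENNReal.ofReal t := by
        rw [← ENNReal.ofReal_add he.le hu0]
        congr 1
        rw [hudef]; ring

end Q296.Cover
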